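import Mathlib

/-!
# Weak approximation over the rational numbers
-/

set_option autoImplicit false
set_option linter.style.haveILetI false

namespace Pool.Agent.Helper47.WA

open Polynomial

/-- the absolute values of the places `∞` and `p ∈ S` -/
noncomputable def absS (S : Finset ℕ) (hS : ∀ p ∈ S, p.Prime) : Option S → AbsoluteValue ℚ ℝ
  | none => Rat.AbsoluteValue.real
  | some p => @Rat.AbsoluteValue.padic p.1 ⟨hS p.1 p.2⟩

theorem absS_nontrivial (S : Finset ℕ) (hS : ∀ p ∈ S, p.Prime) (i : Option S) :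
    (absS S hS i).IsNontrivial := by
  rcases i with _ | ⟨p, hp⟩
  · exact ⟨2, by norm_num, by simp [absS]⟩
  · haveI : Fact p.Prime := ⟨hS p hp⟩
    refine ⟨p, by exact_mod_cast (hS p hp).ne_zero, ?_⟩
    have h1 : (1 : ℝ) < p := by exact_mod_cast (hS p hp).one_lt
    simp only [absS, Rat.AbsoluteValue.padic_eq_padicNorm, padicNorm.padicNorm_p (hS p hp).one_lt]
    push_cast
    rw [inv_ne_one]
    exact h1.ne'

theorem padic_not_equiv {p q : ℕ} [Fact p.Prime] [Fact q.Prime] (hpq : p ≠ q) :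
    ¬ (Rat.AbsoluteValue.padic p).IsEquiv (Rat.AbsoluteValue.padic q) := by
  intro h
  have h1 := h.lt_one_iff (x := (p : ℚ))
  have hp : (1 : ℝ) < p := by exact_mod_cast (Fact.out : p.Prime).one_lt
  rw [Rat.AbsoluteValue.padic_eq_padicNorm, Rat.AbsoluteValue.padic_eq_padicNorm,
    padicNorm.padicNorm_p (Fact.out : p.Prime).one_lt,
    padicNorm.padicNorm_of_prime_of_ne hpq.symm] at h1
  push_cast at h1
  have h2 := h1.1 (inv_lt_one_of_one_lt₀ hp)
  exact lt_irrefl _ h2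

theorem absS_pairwise (S : Finset ℕ) (hS : ∀ p ∈ S, p.Prime) :
    Pairwise fun i j => ¬ (absS S hS i).IsEquiv (absS S hS j) := by
  rintro (_ | ⟨p, hp⟩) (_ | ⟨q, hq⟩) hij
  · exact absurd rfl hij
  · haveI : Fact q.Prime := ⟨hS q hq⟩
    exact Rat.AbsoluteValue.not_real_isEquiv_padic q
  · haveI : Fact p.Prime := ⟨hS p hp⟩
    intro h
    exact Rat.AbsoluteValue.not_real_isEquiv_padic p h.symm
  · haveI : Fact p.Prime := ⟨hS p hp⟩
    haveI : Fact q.Prime := ⟨hS q hq⟩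
    refine padic_not_equiv ?_
    rintro rfl
    exact hij rfl

/-- weak approximation, rational targets -/
theorem approx_rat (S : Finset ℕ) (hS : ∀ p ∈ S, p.Prime) (a : ℕ → ℚ) (b : ℚ) (ε : ℝ)
    (hε : 0 < ε) : ∃ r : ℚ, |(r : ℝ) - b| < ε ∧
      ∀ p ∈ S, ((padicNorm p (r - a p) : ℚ) : ℝ) < ε := by
  have h := AbsoluteValue.denseRange_algebraMap_pi (absS_nontrivial S hS) (absS_pairwise S hS)
  rw [Metric.denseRange_iff] at h
  obtain ⟨r, hr⟩ := h (fun i => (WithAbs.equiv (absS S hS i)).symm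
    (match i with
      | none => b
      | some p => a p.1)) ε hε
  rw [dist_pi_lt_iff hε] at hr
  refine ⟨r, ?_, fun p hp => ?_⟩
  · have h1 := hr none
    rw [dist_eq_norm, WithAbs.norm_eq_apply_ofAbs] at h1
    have h2 : (absS S hS none) (b - r) < ε := h1
    rw [AbsoluteValue.map_sub] at h2
    simp only [absS, Rat.AbsoluteValue.real_eq_abs] at h2
    push_cast at h2
    exact h2
  · have h1 := hr (some ⟨p, hp⟩)
    rw [dist_eq_norm, WithAbs.norm_eq_apply_ofAbs] at h1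
    have h2 : (absS S hS (some ⟨p, hp⟩)) (a p - r) < ε := h1
    rw [AbsoluteValue.map_sub] at h2
    exact h2

/-- weak approximation -/
theorem approx (S : Finset ℕ) (hS : ∀ p ∈ S, p.Prime) (b : ℝ)
    (a : ∀ (p : ℕ) [Fact p.Prime], ℚ_[p]) (ε : ℝ) (hε : 0 < ε) :
    ∃ r : ℚ, |(r : ℝ) - b| < ε ∧ ∀ (p : ℕ) [Fact p.Prime], p ∈ S → ‖(r : ℚ_[p]) - a p‖ < ε := by
  classical
  obtain ⟨b', hb'1, hb'2⟩ := exists_rat_btwn (show b - ε / 2 < b + ε / 2 by linarith)
  have ha : ∀ p : ℕ, ∃ a' : ℚ, ∀ [Fact p.Prime], ‖a p - (a' : ℚ_[p])‖ < ε / 2 := by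
    intro p
    by_cases hp : p.Prime
    · haveI : Fact p.Prime := ⟨hp⟩
      obtain ⟨r, hr⟩ := Padic.rat_dense p (a p) (half_pos hε)
      exact ⟨r, fun {_} => hr⟩
    · exact ⟨0, fun {h} => absurd h.out hp⟩
  choose a' ha' using ha
  obtain ⟨r, hr1, hr2⟩ := approx_rat S hS a' b' (ε / 2) (half_pos hε)
  refine ⟨r, ?_, fun p hp hpS => ?_⟩
  · have h1 : |(b' : ℝ) - b| < ε / 2 := by rw [abs_lt]; constructor <;> linarith
    have h2 := abs_add_le ((r : ℝ) - b') (b' - b)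
    rw [sub_add_sub_cancel] at h2
    linarith
  · have h1 := hr2 p hpS
    have h2 : ‖((r - a' p : ℚ) : ℚ_[p])‖ = ((padicNorm p (r - a' p) : ℚ) : ℝ) :=
      Padic.eq_padicNorm _
    rw [← h2] at h1
    push_cast at h1
    have h3 := ha' p
    have h4 := norm_add_le ((r : ℚ_[p]) - (a' p : ℚ_[p])) ((a' p : ℚ_[p]) - a p)
    rw [sub_add_sub_cancel, norm_sub_rev (a' p : ℚ_[p]) (a p)] at h4
    linarith

/-- the nonzero squares form a neighbourhood of a nonzero square -/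
theorem squares_nhds {K : Type*} [NontriviallyNormedField K] [CompleteSpace K] [CharZero K]
    (y : K) (hy : y ≠ 0) : {z : K | ∃ u : K, u ≠ 0 ∧ u ^ 2 = z} ∈ nhds (y ^ 2) := by
  have h1 : HasStrictDerivAt (fun x : K => x ^ 2) (2 * y) y := by
    have := hasStrictDerivAt_pow 2 y
    simpa using this
  have h2 : (2 * y : K) ≠ 0 := mul_ne_zero two_ne_zero hy
  have h3 := h1.map_nhds_eq h2
  rw [← h3, Filter.mem_map]
  have h4 : ∀ᶠ x in nhds y, x ≠ 0 := isOpen_ne.mem_nhds hy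
  filter_upwards [h4] with x hx
  exact ⟨x, hx, rfl⟩

/-- values near a nonzero square value are nonzero squares -/
theorem square_value {K : Type*} [NontriviallyNormedField K] [CompleteSpace K] [CharZero K]
    (n : ℕ) (g : K[X]) (hg : g.natDegree ≤ n) (x y : K) (hy : y ≠ 0) (hxy : y ^ 2 = g.eval x) :
    ∃ δ : ℝ, 0 < δ ∧ ∀ (h : K[X]) (x' : K), h.natDegree ≤ n →
      (∀ i ≤ n, ‖h.coeff i - g.coeff i‖ < δ) → ‖x' - x‖ < δ →
      ∃ u : K, u ≠ 0 ∧ u ^ 2 = h.eval x' := by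
  have hc : Continuous fun c : (Fin (n + 1) → K) × K => ∑ i : Fin (n + 1), c.1 i * c.2 ^ (i : ℕ) := by
    fun_prop
  have h1 := hc.tendsto ((fun i : Fin (n + 1) => g.coeff i), x)
  have hev : ∀ (h : K[X]) (x' : K), h.natDegree ≤ n →
      ∑ i : Fin (n + 1), h.coeff i * x' ^ (i : ℕ) = h.eval x' := by
    intro h x' hh
    rw [eval_eq_sum_range' (Nat.lt_succ_of_le hh), Fin.sum_univ_eq_sum_range
      (fun i => h.coeff i * x' ^ i)]
  have h2 := h1 (by rw [hev g x hg, ← hxy]; exact squares_nhds y hy)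
  rw [Filter.mem_map, Metric.mem_nhds_iff] at h2
  obtain ⟨δ, hδ, h3⟩ := h2
  refine ⟨δ, hδ, fun h x' hh h4 h5 => ?_⟩
  have h6 : ((fun i : Fin (n + 1) => h.coeff i), x') ∈
      Metric.ball ((fun i : Fin (n + 1) => g.coeff i), x) δ := by
    rw [Metric.mem_ball, Prod.dist_eq, max_lt_iff]
    refine ⟨?_, by simpa [dist_eq_norm] using h5⟩
    rw [dist_pi_lt_iff hδ]
    intro i
    rw [dist_eq_norm]
    exact h4 i (Nat.lt_succ_iff.1 i.2)
  have h7 := h3 h6
  rw [Set.mem_preimage, hev h x' hh] at h7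
  exact h7

end Pool.Agent.Helper47.WA
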