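import Mathlib

/-!
# Irreducibility by Eisenstein's criterion over the `q`-adic numbers
-/

set_option autoImplicit false
set_option linter.style.haveILetI false

namespace Pool.Agent.Helper47.WA

open Polynomial

theorem irreducible_of_near (q : ℕ) [hq : Fact q.Prime] (f : ℚ[X]) (n : ℕ) (hn : 0 < n)
    (hdeg : f.natDegree ≤ n) (hlead : ‖((f.coeff n : ℚ) : ℚ_[q]) - 1‖ < 1)
    (hi : ∀ i < n, ‖((f.coeff i : ℚ) : ℚ_[q])‖ < 1)
    (h0 : ‖((f.coeff 0 : ℚ) : ℚ_[q]) - q‖ < (q : ℝ)⁻¹) : Irreducible f ∧ f.natDegree = n := by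
  classical
  have hn1 : ‖((f.coeff n : ℚ) : ℚ_[q])‖ = 1 := by
    have h1 : ‖(1 : ℚ_[q])‖ = 1 := norm_one
    have h2 := Padic.add_eq_max_of_ne (p := q) (q := ((f.coeff n : ℚ) : ℚ_[q]) - 1) (r := 1)
      (by rw [h1]; exact hlead.ne)
    rw [sub_add_cancel, h1, max_eq_right hlead.le] at h2
    exact h2
  have hq0 : ‖((f.coeff 0 : ℚ) : ℚ_[q])‖ = (q : ℝ)⁻¹ := by
    have h1 : ‖(q : ℚ_[q])‖ = (q : ℝ)⁻¹ := Padic.norm_p
    have h2 := Padic.add_eq_max_of_ne (p := q) (q := ((f.coeff 0 : ℚ) : ℚ_[q]) - q) (r := q)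
      (by rw [h1]; exact h0.ne)
    rw [sub_add_cancel, h1, max_eq_right h0.le] at h2
    exact h2
  have hle : ∀ i ≤ n, ‖((f.coeff i : ℚ) : ℚ_[q])‖ ≤ 1 := by
    intro i hin
    rcases hin.lt_or_eq with h | rfl
    · exact (hi i h).le
    · exact hn1.le
  obtain ⟨c, hc⟩ : ∃ c : ℕ → ℤ_[q], ∀ i, (c i : ℚ_[q]) = if i ≤ n then ((f.coeff i : ℚ) : ℚ_[q]) else 0 := by
    refine ⟨fun i => if h : i ≤ n then ⟨((f.coeff i : ℚ) : ℚ_[q]), hle i h⟩ else 0, fun i => ?_⟩
    by_cases h : i ≤ n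
    · simp [h]
    · simp [h]
  obtain ⟨P, hP⟩ : ∃ P : ℤ_[q][X], P = ∑ i ∈ Finset.range (n + 1), C (c i) * X ^ i := ⟨_, rfl⟩
  have hcoef : ∀ i, P.coeff i = if i ≤ n then c i else 0 := by
    intro i
    rw [hP, finsetSum_coeff]
    simp only [coeff_C_mul, coeff_X_pow, mul_ite, mul_one, mul_zero]
    rw [Finset.sum_ite_eq]
    simp
  have hmap : P.map (algebraMap ℤ_[q] ℚ_[q]) = f.map (Rat.castHom ℚ_[q]) := by
    ext i
    rw [coeff_map, coeff_map, hcoef]
    by_cases h : i ≤ n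
    · rw [if_pos h]
      show (c i : ℚ_[q]) = _
      rw [hc i, if_pos h]
      rfl
    · rw [if_neg h, map_zero, coeff_eq_zero_of_natDegree_lt (by omega), map_zero]
  have hfn : f.coeff n ≠ 0 := by
    intro h
    rw [h] at hn1
    simp at hn1
  have hfdeg : f.natDegree = n := le_antisymm hdeg (le_natDegree_of_ne_zero hfn)
  have hPdeg : P.natDegree = n := by
    apply le_antisymm
    · rw [natDegree_le_iff_coeff_eq_zero]
      intro i hi'
      rw [hcoef, if_neg (by omega)]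
    · apply le_natDegree_of_ne_zero
      rw [hcoef, if_pos le_rfl]
      intro h
      have h2 := hc n
      rw [h, if_pos le_rfl] at h2
      rw [← h2] at hn1
      simp at hn1
  have hPlead : IsUnit P.leadingCoeff := by
    rw [leadingCoeff, hPdeg, hcoef, if_pos le_rfl, PadicInt.isUnit_iff]
    show ‖(c n : ℚ_[q])‖ = 1
    rw [hc n, if_pos le_rfl, hn1]
  have hprim : P.IsPrimitive := by
    rw [isPrimitive_iff_isUnit_of_C_dvd]
    intro r hr
    refine isUnit_of_dvd_unit ?_ hPlead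
    rw [C_dvd_iff_dvd_coeff] at hr
    exact hr _
  have hmem : ∀ x : ℤ_[q], x ∈ Ideal.span {(q : ℤ_[q])} ↔ ‖(x : ℚ_[q])‖ < 1 := by
    intro x
    rw [Ideal.mem_span_singleton, ← PadicInt.norm_lt_one_iff_dvd]
    rfl
  have hprime : (Ideal.span {(q : ℤ_[q])}).IsPrime := by
    rw [Ideal.span_singleton_prime (by exact_mod_cast hq.out.ne_zero)]
    exact PadicInt.prime_p
  have heis : P.IsEisensteinAt (Ideal.span {(q : ℤ_[q])}) := by
    refine ⟨?_, ?_, ?_⟩
    · intro h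
      rw [hmem] at h
      have h3 := PadicInt.isUnit_iff.1 hPlead
      have h4 : ‖(P.leadingCoeff : ℚ_[q])‖ = 1 := h3
      linarith
    · intro i hi'
      rw [hPdeg] at hi'
      rw [hmem, hcoef, if_pos hi'.le, hc i, if_pos hi'.le]
      exact hi i hi'
    · rw [hcoef, if_pos (Nat.zero_le _), Ideal.span_singleton_pow, Ideal.mem_span_singleton]
      intro h
      have h3 : ‖c 0‖ ≤ (q : ℝ) ^ (-(2 : ℕ) : ℤ) := by
        rw [PadicInt.norm_le_pow_iff_mem_span_pow, Ideal.mem_span_singleton]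
        exact h
      have h4 : ‖c 0‖ = (q : ℝ)⁻¹ := by
        have h5 : ‖c 0‖ = ‖(c 0 : ℚ_[q])‖ := rfl
        rw [h5, hc 0, if_pos (Nat.zero_le _), hq0]
      rw [h4] at h3
      have h6 : (1 : ℝ) < q := by exact_mod_cast hq.out.one_lt
      have h7 : (q : ℝ) ^ (-(2 : ℕ) : ℤ) < (q : ℝ)⁻¹ := by
        rw [← zpow_neg_one]
        exact zpow_lt_zpow_right₀ h6 (by norm_num)
      linarith
  have hirr : Irreducible P := heis.irreducible hprime hprim (by rw [hPdeg]; exact hn)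
  haveI : NormalizedGCDMonoid ℤ_[q] := Classical.choice inferInstance
  have h2 := (hprim.irreducible_iff_irreducible_map_fraction_map (K := ℚ_[q])).1 hirr
  rw [hmap] at h2
  refine ⟨IsPrimitive.irreducible_of_irreducible_map_of_injective (φ := Rat.castHom ℚ_[q])
    (Rat.castHom ℚ_[q]).injective ?_ h2, hfdeg⟩
  rw [isPrimitive_iff_ne_zero]
  rintro rfl
  simp at hfn

end Pool.Agent.Helper47.WA
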