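import Pool.Agent.Helper47.WA.Twist
import Pool.Agent.Helper47.WA.Approx
import Pool.Agent.Helper47.WA.Eis

/-!
# Density: the construction
-/

set_option autoImplicit false
set_option linter.style.haveILetI false

namespace Pool.Agent.Helper47.WA

open Polynomial
open Pool.Agent.Q51.EL Pool.Agent.Q161.SX

universe v w

theorem exists_pos_le (S : Finset ℕ) (d : ℕ → ℝ) (h : ∀ p ∈ S, 0 < d p) :
    ∃ δ : ℝ, 0 < δ ∧ ∀ p ∈ S, δ ≤ d p := by
  classical
  induction S using Finset.induction_on with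
  | empty => exact ⟨1, one_pos, by simp⟩
  | insert a s ha ih =>
    obtain ⟨δ, h1, h2⟩ := ih (fun p hp => h p (Finset.mem_insert_of_mem hp))
    refine ⟨min δ (d a), lt_min h1 (h a (Finset.mem_insert_self _ _)), fun p hp => ?_⟩
    rcases Finset.mem_insert.1 hp with rfl | hp
    · exact min_le_right _ _
    · exact (min_le_left _ _).trans (h2 p hp)

theorem squarefree_part (r : ℚ) (hr : r ≠ 0) :
    ∃ (D : ℤ) (s : ℚ), Squarefree D ∧ s ≠ 0 ∧ r = D * s ^ 2 := by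
  have hn : r.num ≠ 0 := Rat.num_ne_zero.2 hr
  have hd : (r.den : ℤ) ≠ 0 := by exact_mod_cast r.den_ne_zero
  obtain ⟨N, hN⟩ : ∃ N : ℤ, N = r.num * r.den := ⟨_, rfl⟩
  have hN0 : N ≠ 0 := by rw [hN]; exact mul_ne_zero hn hd
  obtain ⟨a, b, hab, ha⟩ := Nat.sq_mul_squarefree N.natAbs
  have ha0 : a ≠ 0 := ha.ne_zero
  have h1 : N = (N.sign * a) * (b : ℤ) ^ 2 := by
    have h2 := Int.sign_mul_natAbs N
    rw [← hab] at h2
    push_cast at h2
    rw [← h2]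
    rw [h2]
    conv_lhs => rw [← h2]
    ring
  have hs : N.sign ≠ 0 := by rw [Ne, Int.sign_eq_zero_iff_zero]; exact hN0
  have hb0 : b ≠ 0 := by
    rintro rfl
    rw [h1] at hN0
    simp at hN0
  have hn' : (N.sign * a).natAbs = a := by
    rw [Int.natAbs_mul, Int.natAbs_sign_of_ne_zero hN0, one_mul, Int.natAbs_natCast]
  refine ⟨N.sign * a, b / r.den, ?_, ?_, ?_⟩
  · rw [← Int.squarefree_natAbs, hn']; exact ha
  · have : (r.den : ℚ) ≠ 0 := by exact_mod_cast r.den_ne_zero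
    have hb : (b : ℚ) ≠ 0 := by exact_mod_cast hb0
    positivity
  · have h3 : (r.den : ℚ) ≠ 0 := by exact_mod_cast r.den_ne_zero
    have h4 : r = r.num / r.den := (Rat.num_div_den r).symm
    have h5 : ((N : ℤ) : ℚ) = ((N.sign * a : ℤ) : ℚ) * (b : ℚ) ^ 2 := by
      conv_lhs => rw [h1]
      push_cast
      ring
    rw [div_pow, ← mul_div_assoc, ← h5, hN]
    push_cast
    rw [pow_two, mul_div_mul_right _ _ h3]
    exact h4

/-- a rational number whose square class is prescribed at finitely many places -/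
theorem isSq_padic (S : Finset ℕ) (m : ℕ) (hm : m.Coprime (8 * ∏ p ∈ S, p)) (t : ℤ)
    (ht : ((8 * ∏ p ∈ S, p : ℕ) : ℤ) ∣ m - t ^ 2) (p : ℕ) [hp : Fact p.Prime] (hpS : p ∈ S) :
    ∃ s : ℚ_[p], s ≠ 0 ∧ s ^ 2 = (m : ℚ_[p]) := by
  have hpd : p ∣ 8 * ∏ p ∈ S, p := (Finset.dvd_prod_of_mem _ hpS).mul_left 8
  have hpm : ¬ (p : ℤ) ∣ (m : ℤ) := by
    intro h
    have h1 : p ∣ m := by exact_mod_cast h
    exact hp.out.one_lt.ne' (Nat.eq_one_of_dvd_coprimes hm h1 hpd)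
  by_cases h2 : p = 2
  · subst h2
    have h8 : (8 : ℤ) ∣ t ^ 2 - (m : ℤ) := by
      have h1 : (8 : ℤ) ∣ m - t ^ 2 := (by exact_mod_cast (dvd_mul_right (8 : ℤ) _ :
        (8 : ℤ) ∣ 8 * ((∏ p ∈ S, p : ℕ) : ℤ)) : (8 : ℤ) ∣ ((8 * ∏ p ∈ S, p : ℕ) : ℤ)).trans ht
      have := (dvd_neg.2 h1)
      rwa [neg_sub] at this
    obtain ⟨s, h3, h4⟩ := Q52.EL.sq_two (m : ℤ) t hpm h8
    exact ⟨s, h3, by rw [h4]; norm_cast⟩
  · have h8 : (p : ℤ) ∣ t ^ 2 - (m : ℤ) := by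
      have h1 : (p : ℤ) ∣ m - t ^ 2 := (Int.natCast_dvd_natCast.2 hpd).trans ht
      have := (dvd_neg.2 h1)
      rwa [neg_sub] at this
    obtain ⟨s, h3, h4⟩ := Q52.EL.sq_odd p h2 (m : ℤ) t hpm h8
    exact ⟨s, h3, by rw [h4]; norm_cast⟩

/-- scaling by a rational number close to the inverse of a local square root -/
theorem scale {K : Type*} [NontriviallyNormedField K] (n : ℕ) (c : ℕ → K) (E e : K) (he : e ≠ 0)
    (hE : e ^ 2 = E) (ε : ℝ) (hε : 0 < ε) :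
    ∃ δ : ℝ, 0 < δ ∧ ∀ z : K, ‖z - e⁻¹‖ < δ → z ≠ 0 ∧ ∀ i ≤ n, ‖z ^ 2 * E * c i - c i‖ < ε := by
  have hc : Continuous fun z : K => fun i : Fin (n + 1) => z ^ 2 * E * c i := by fun_prop
  have h1 := hc.tendsto e⁻¹
  have h2 : Metric.ball (fun i : Fin (n + 1) => e⁻¹ ^ 2 * E * c i) ε ∈
    nhds (fun i : Fin (n + 1) => e⁻¹ ^ 2 * E * c i) := Metric.ball_mem_nhds _ hε
  have h3 := h1 h2
  rw [Filter.mem_map, Metric.mem_nhds_iff] at h3
  obtain ⟨δ, hδ, h4⟩ := h3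
  refine ⟨min δ ‖e⁻¹‖, lt_min hδ (norm_pos_iff.2 (inv_ne_zero he)), fun z hz => ⟨?_, fun i hi => ?_⟩⟩
  · rintro rfl
    rw [zero_sub, norm_neg] at hz
    exact absurd hz (not_lt.2 (min_le_right _ _))
  · have h5 : z ∈ Metric.ball e⁻¹ δ := by
      rw [Metric.mem_ball, dist_eq_norm]
      exact hz.trans_le (min_le_left _ _)
    have h6 := h4 h5
    rw [Set.mem_preimage, Metric.mem_ball, dist_pi_lt_iff hε] at h6
    have h7 := h6 ⟨i, Nat.lt_succ_of_le hi⟩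
    rw [dist_eq_norm] at h7
    have h8 : e⁻¹ ^ 2 * E * c i = c i := by
      rw [← hE]
      field_simp
    simp only at h7
    rwa [h8] at h7

theorem curvePt_of_value (f : ℤ[X]) (D : ℤ) (x s : ℚ) (h : aeval x f = D * s ^ 2)
    (K : Type) [Field K] [CharZero K] : CurvePt f D K := by
  refine ⟨(x : K), 1, (s : K), Or.inr one_ne_zero, ?_⟩
  rw [Q52.EL.hom_one]
  have h1 : aeval (x : K) f = ((aeval x f : ℚ) : K) := by
    have := Polynomial.aeval_algebraMap_apply K x f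
    simpa using this
  rw [h1, h]
  push_cast
  ring

/-- the first approximation: an irreducible polynomial with a value in the right square classes -/
theorem first (n : ℕ) (hn : 0 < n) (S : Finset ℕ) (hS : ∀ p ∈ S, p.Prime) (g0 : ℝ[X])
    (g : ∀ (p : ℕ) [Fact p.Prime], ℚ_[p][X]) (hd0 : g0.natDegree ≤ n)
    (hd : ∀ (p : ℕ) [Fact p.Prime], p ∈ S → (g p).natDegree ≤ n)
    (h0 : ∃ x y : ℝ, y ≠ 0 ∧ y ^ 2 = g0.eval x)
    (h : ∀ (p : ℕ) [Fact p.Prime], p ∈ S → ∃ x y : ℚ_[p], y ≠ 0 ∧ y ^ 2 = (g p).eval x)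
    (ε : ℝ) (hε : 0 < ε) :
    ∃ (f : ℚ[X]) (x : ℚ), Irreducible f ∧ f.natDegree = n ∧
      (∀ i ≤ n, |(f.coeff i : ℝ) - g0.coeff i| < ε) ∧
      (∀ (p : ℕ) [Fact p.Prime], p ∈ S → ∀ i ≤ n, ‖(f.coeff i : ℚ_[p]) - (g p).coeff i‖ < ε) ∧
      (∃ u : ℝ, u ≠ 0 ∧ u ^ 2 = ((f.eval x : ℚ) : ℝ)) ∧
      (∀ (p : ℕ) [Fact p.Prime], p ∈ S → ∃ u : ℚ_[p], u ≠ 0 ∧ u ^ 2 = ((f.eval x : ℚ) : ℚ_[p])) := by
  classical
  obtain ⟨q, hqS, hq⟩ : ∃ q : ℕ, q ∉ S ∧ q.Prime := by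
    obtain ⟨q, hq1, hq2⟩ := Nat.exists_infinite_primes (S.sup id + 1)
    refine ⟨q, fun hqS => ?_, hq2⟩
    have : q ≤ S.sup id := Finset.le_sup (f := id) hqS
    omega
  haveI : Fact q.Prime := ⟨hq⟩
  obtain ⟨x0, y0, hy0, hxy0⟩ := h0
  obtain ⟨δ0, hδ0, hsq0⟩ := square_value n g0 hd0 x0 y0 hy0 hxy0
  have h' : ∀ (p : ℕ) [Fact p.Prime], ∃ (x : ℚ_[p]) (δ : ℝ), 0 < δ ∧ (p ∈ S →
      ∀ (k : ℚ_[p][X]) (x' : ℚ_[p]), k.natDegree ≤ n →
      (∀ i ≤ n, ‖k.coeff i - (g p).coeff i‖ < δ) → ‖x' - x‖ < δ →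
      ∃ u : ℚ_[p], u ≠ 0 ∧ u ^ 2 = k.eval x') := by
    intro p hp
    by_cases hpS : p ∈ S
    · obtain ⟨x, y, hy, hxy⟩ := h p hpS
      obtain ⟨δ, hδ, hsq⟩ := square_value n (g p) (hd p hpS) x y hy hxy
      exact ⟨x, δ, hδ, fun _ => hsq⟩
    · exact ⟨0, 1, one_pos, fun h => absurd h hpS⟩
  choose xp dp hdp hsqp using h'
  obtain ⟨δ1, hδ1, hδ1'⟩ := exists_pos_le S
    (fun p => if hp : p.Prime then @dp p ⟨hp⟩ else 1) (by
      intro p hpS
      rw [dif_pos (hS p hpS)]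
      exact @hdp p ⟨hS p hpS⟩)
  have hδ1'' : ∀ (p : ℕ) [Fact p.Prime], p ∈ S → δ1 ≤ dp p := by
    intro p hp hpS
    have := hδ1' p hpS
    rwa [dif_pos hp.out] at this
  have hq1 : (1 : ℝ) < q := by exact_mod_cast hq.one_lt
  have hqinv : 0 < (q : ℝ)⁻¹ := by positivity
  have hqinv1 : (q : ℝ)⁻¹ < 1 := inv_lt_one_of_one_lt₀ hq1
  obtain ⟨δ, hδdef⟩ : ∃ δ : ℝ, δ = min (min δ0 δ1) (min ε (q : ℝ)⁻¹) := ⟨_, rfl⟩
  have hδ : 0 < δ := by rw [hδdef]; exact lt_min (lt_min hδ0 hδ1) (lt_min hε hqinv)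
  have e0 : δ ≤ δ0 := by rw [hδdef]; exact (min_le_left _ _).trans (min_le_left _ _)
  have e1 : δ ≤ δ1 := by rw [hδdef]; exact (min_le_left _ _).trans (min_le_right _ _)
  have e2 : δ ≤ ε := by rw [hδdef]; exact (min_le_right _ _).trans (min_le_left _ _)
  have e3 : δ ≤ (q : ℝ)⁻¹ := by rw [hδdef]; exact (min_le_right _ _).trans (min_le_right _ _)
  -- the coefficients
  have hS' : ∀ p ∈ insert q S, p.Prime := by
    intro p hp
    rcases Finset.mem_insert.1 hp with rfl | hp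
    · exact hq
    · exact hS p hp
  have hc := fun i : ℕ => approx (insert q S) hS' (g0.coeff i)
    (fun p _ => if p = q then (((if i = n then 1 else if i = 0 then (q : ℚ) else 0) : ℚ) : ℚ_[p])
      else (g p).coeff i) δ hδ
  choose c hc0 hcp using hc
  obtain ⟨x, hx0, hxp⟩ := approx S hS x0 (fun p _ => xp p) δ hδ
  obtain ⟨f, hf⟩ : ∃ f : ℚ[X], f = ∑ i ∈ Finset.range (n + 1), C (c i) * X ^ i := ⟨_, rfl⟩
  have hcoef : ∀ i, f.coeff i = if i ≤ n then c i else 0 := by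
    intro i
    rw [hf, finsetSum_coeff]
    simp only [coeff_C_mul, coeff_X_pow, mul_ite, mul_one, mul_zero]
    rw [Finset.sum_ite_eq]
    simp
  have hfdeg : f.natDegree ≤ n := by
    rw [natDegree_le_iff_coeff_eq_zero]
    intro i hi
    rw [hcoef, if_neg (by omega)]
  have hcq : ∀ i, ‖(c i : ℚ_[q]) -
      (((if i = n then 1 else if i = 0 then (q : ℚ) else 0) : ℚ) : ℚ_[q])‖ < δ := by
    intro i
    have := hcp i q (Finset.mem_insert_self _ _)
    rwa [if_pos rfl] at this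
  have hcS : ∀ i (p : ℕ) [Fact p.Prime], p ∈ S → ‖(c i : ℚ_[p]) - (g p).coeff i‖ < δ := by
    intro i p hp hpS
    have := hcp i p (Finset.mem_insert_of_mem hpS)
    have hpq : p ≠ q := by rintro rfl; exact hqS hpS
    rwa [if_neg hpq] at this
  obtain ⟨hirr, hdeg⟩ := irreducible_of_near q f n hn hfdeg (by
      have := hcq n
      rw [if_pos rfl] at this
      rw [hcoef, if_pos le_rfl]
      push_cast at this
      linarith) (by
      intro i hi
      have := hcq i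
      rw [if_neg hi.ne] at this
      rw [hcoef, if_pos hi.le]
      have h1 : ‖(((if i = 0 then (q : ℚ) else 0) : ℚ) : ℚ_[q])‖ < 1 := by
        by_cases h2 : i = 0
        · rw [if_pos h2]
          push_cast
          rw [Padic.norm_p]
          exact hqinv1
        · rw [if_neg h2]
          simp
      have h3 := Padic.nonarchimedean ((c i : ℚ_[q]) -
        (((if i = 0 then (q : ℚ) else 0) : ℚ) : ℚ_[q])) (((if i = 0 then (q : ℚ) else 0) : ℚ) : ℚ_[q])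
      rw [sub_add_cancel] at h3
      refine h3.trans_lt (max_lt ?_ h1)
      linarith) (by
      have := hcq 0
      rw [if_neg hn.ne, if_pos rfl] at this
      rw [hcoef, if_pos (Nat.zero_le _)]
      push_cast at this
      linarith)
  have hev : ∀ (K : Type) [Field K] [CharZero K], ((f.eval x : ℚ) : K) =
      (f.map (algebraMap ℚ K)).eval (x : K) := by
    intro K _ _
    rw [eval_map_algebraMap]
    have := Polynomial.aeval_algebraMap_apply K x f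
    simpa using this.symm
  refine ⟨f, x, hirr, hdeg, ?_, ?_, ?_, ?_⟩
  · intro i hi
    rw [hcoef, if_pos hi]
    exact (hc0 i).trans_le e2
  · intro p hp hpS i hi
    rw [hcoef, if_pos hi]
    exact (hcS i p hpS).trans_le e2
  · rw [hev ℝ]
    refine hsq0 _ _ (natDegree_map_le.trans hfdeg) (fun i hi => ?_) ?_
    · rw [coeff_map, hcoef, if_pos hi, Real.norm_eq_abs]
      exact (hc0 i).trans_le e0
    · rw [Real.norm_eq_abs]
      exact hx0.trans_le e0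
  · intro p hp hpS
    rw [hev ℚ_[p]]
    refine hsqp p hpS _ _ (natDegree_map_le.trans hfdeg) (fun i hi => ?_) ?_
    · rw [coeff_map, hcoef, if_pos hi]
      exact (hcS i p hpS).trans_le (e1.trans (hδ1'' p hpS))
    · exact (hxp p hpS).trans_le (e1.trans (hδ1'' p hpS))

end Pool.Agent.Helper47.WA
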