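import Pool.Agent.Helper47.WA.Dense

/-!
# Density: the main construction
-/

set_option autoImplicit false
set_option linter.style.haveILetI false

namespace Pool.Agent.Helper47.WA

open Polynomial
open Pool.Agent.Q51.EL Pool.Agent.Q161.SX

universe v w

theorem core (n : ℕ) (hn : Even n) (h6 : 6 ≤ n) (S : Finset ℕ) (hS : ∀ p ∈ S, p.Prime) (g0 : ℝ[X])
    (g : ∀ (p : ℕ) [Fact p.Prime], ℚ_[p][X]) (hd0 : g0.natDegree ≤ n)
    (hd : ∀ (p : ℕ) [Fact p.Prime], p ∈ S → (g p).natDegree ≤ n)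
    (h0 : ∃ x y : ℝ, y ≠ 0 ∧ y ^ 2 = g0.eval x)
    (h : ∀ (p : ℕ) [Fact p.Prime], p ∈ S → ∃ x y : ℚ_[p], y ≠ 0 ∧ y ^ 2 = (g p).eval x)
    (ε : ℝ) (hε : 0 < ε) :
    ∃ (f : ℤ[X]) (D : ℤ) (l : ℚ), Irreducible (f.map (Int.castRingHom ℚ)) ∧ f.natDegree = n ∧
      l ≠ 0 ∧ D ≠ 0 ∧ ELS f D ∧ ¬ Bad.{v, w} f D ∧
      (∀ i ≤ n, |((l ^ 2 * D * f.coeff i : ℚ) : ℝ) - g0.coeff i| < ε) ∧
      (∀ (p : ℕ) [Fact p.Prime], p ∈ S → ∀ i ≤ n,
        ‖((l ^ 2 * D * f.coeff i : ℚ) : ℚ_[p]) - (g p).coeff i‖ < ε) := by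
  classical
  obtain ⟨f1, x, hirr, hdeg, hc0, hcp, ⟨u0, hu0, hu0'⟩, hup⟩ := first n (by omega) S hS g0 g hd0 hd
    h0 h (ε / 2) (half_pos hε)
  -- an integral polynomial
  obtain ⟨b, hb, hbf⟩ := IsLocalization.integerNormalization_spec (nonZeroDivisors ℤ) f1
  have hb0 : b ≠ 0 := nonZeroDivisors.ne_zero hb
  have hbq : (b : ℚ) ≠ 0 := by exact_mod_cast hb0
  obtain ⟨f, hf⟩ : ∃ f : ℤ[X], f = C b * IsLocalization.integerNormalization (nonZeroDivisors ℤ) f1 :=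
    ⟨_, rfl⟩
  have hmap : f.map (Int.castRingHom ℚ) = C ((b : ℚ) ^ 2) * f1 := by
    have h1 : (IsLocalization.integerNormalization (nonZeroDivisors ℤ) f1).map (Int.castRingHom ℚ) =
        C (b : ℚ) * f1 := by
      have h2 : algebraMap ℤ ℚ = Int.castRingHom ℚ := rfl
      rw [← h2, hbf, zsmul_eq_mul]
      congr 1
    rw [hf, Polynomial.map_mul, map_C, h1, ← mul_assoc, ← C_mul, pow_two]
    rfl
  have hcoef : ∀ i, (f.coeff i : ℚ) = (b : ℚ) ^ 2 * f1.coeff i := by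
    intro i
    have h1 : (f.map (Int.castRingHom ℚ)).coeff i = (C ((b : ℚ) ^ 2) * f1).coeff i := by rw [hmap]
    rw [coeff_map, coeff_C_mul] at h1
    exact h1
  have hfirr : Irreducible (f.map (Int.castRingHom ℚ)) := by
    rw [hmap]
    exact (irreducible_isUnit_mul (isUnit_C.2 (IsUnit.mk0 _ (pow_ne_zero 2 hbq)))).2 hirr
  have hfdeg : f.natDegree = n := by
    have h1 : (f.map (Int.castRingHom ℚ)).natDegree = f.natDegree :=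
      natDegree_map_eq_of_injective (Int.castRingHom ℚ).injective_int f
    rw [← h1, hmap, natDegree_C_mul (pow_ne_zero 2 hbq), hdeg]
  -- the value at x
  have hval : aeval x f = (b : ℚ) ^ 2 * f1.eval x := by
    have h1 : aeval x f = (f.map (Int.castRingHom ℚ)).eval x := by
      rw [aeval_def, eval_map]
      rfl
    rw [h1, hmap, eval_mul, eval_C]
  have hfx : f1.eval x ≠ 0 := by
    intro h1
    rw [h1] at hu0'
    simp at hu0'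
    exact hu0 hu0'
  obtain ⟨D0, s, hD0, hs, hD0s⟩ := squarefree_part (aeval x f)
    (by rw [hval]; exact mul_ne_zero (pow_ne_zero 2 hbq) hfx)
  have hD0' : D0 ≠ 0 := hD0.ne_zero
  have hels : ELS f D0 :=
    ⟨curvePt_of_value f D0 x s hD0s ℝ, fun p _ => curvePt_of_value f D0 x s hD0s ℚ_[p]⟩
  obtain ⟨m, hm0, hmN, ⟨t, ht⟩, hsq, hEL, hBad⟩ := exists_twist.{v, w} f hfirr (by rw [hfdeg]; exact hn)
    (by rw [hfdeg]; exact h6) D0 hD0 hels (8 * ∏ p ∈ S, p)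
    (mul_ne_zero (by norm_num) (Finset.prod_ne_zero_iff.2 fun p hp => (hS p hp).ne_zero))
  have hD : (D0 * m : ℤ) ≠ 0 := mul_ne_zero hD0' (by exact_mod_cast hm0.ne')
  -- local square roots of b² D
  have hroot : ∀ (K : Type) [Field K] [CharZero K] (u : K), u ≠ 0 →
      u ^ 2 = ((f1.eval x : ℚ) : K) → (∃ z : K, z ≠ 0 ∧ z ^ 2 = (m : K)) →
      ∃ e : K, e ≠ 0 ∧ e ^ 2 = (((b : ℚ) ^ 2 * ((D0 * m : ℤ) : ℚ) : ℚ) : K) := by
    intro K _ _ u hu hu' ⟨z, hz, hz'⟩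
    have hsK : ((s : ℚ) : K) ≠ 0 := by exact_mod_cast hs
    have hbK : ((b : ℤ) : K) ≠ 0 := by exact_mod_cast hb0
    refine ⟨(b : K) ^ 2 * u * z / (s : K), ?_, ?_⟩
    · exact div_ne_zero (mul_ne_zero (mul_ne_zero (pow_ne_zero 2 hbK) hu) hz) hsK
    · have h1 : ((b : ℚ) ^ 2 * f1.eval x : ℚ) = D0 * s ^ 2 := by rw [← hval, hD0s]
      have h2 : ((b : K) ^ 2 * ((f1.eval x : ℚ) : K)) = (D0 : K) * (s : K) ^ 2 := by
        exact_mod_cast congrArg (fun r : ℚ => (r : K)) h1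
      rw [← hu'] at h2
      rw [div_pow, mul_pow, mul_pow, hz']
      push_cast
      rw [div_eq_iff (pow_ne_zero 2 hsK)]
      linear_combination (b : K) ^ 2 * (m : K) * h2
  obtain ⟨E, hE⟩ : ∃ E : ℚ, E = (b : ℚ) ^ 2 * ((D0 * m : ℤ) : ℚ) := ⟨_, rfl⟩
  rw [← hE] at hroot
  have hco : ∀ (l : ℚ) (i : ℕ), (l ^ 2 * ((D0 * m : ℤ) : ℚ) * f.coeff i : ℚ) =
      l ^ 2 * E * f1.coeff i := by
    intro l i
    rw [hcoef, hE]
    ring
  -- the real place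
  have hm0' : (0 : ℝ) < (m : ℝ) := by exact_mod_cast hm0
  obtain ⟨e0, he0, he0'⟩ := hroot ℝ u0 hu0 hu0'
    ⟨Real.sqrt m, (Real.sqrt_pos.2 hm0').ne', Real.sq_sqrt hm0'.le⟩
  obtain ⟨δ0, hδ0, hsc0⟩ := scale n (fun i => ((f1.coeff i : ℚ) : ℝ)) (E : ℝ) e0 he0 he0' (ε / 2)
    (half_pos hε)
  -- the p-adic places
  have h' : ∀ (p : ℕ) [Fact p.Prime], ∃ (e : ℚ_[p]) (δ : ℝ), 0 < δ ∧ (p ∈ S →
      ∀ z : ℚ_[p], ‖z - e⁻¹‖ < δ → z ≠ 0 ∧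
        ∀ i ≤ n, ‖z ^ 2 * (E : ℚ_[p]) * ((f1.coeff i : ℚ) : ℚ_[p]) - ((f1.coeff i : ℚ) : ℚ_[p])‖ <
          ε / 2) := by
    intro p hp
    by_cases hpS : p ∈ S
    · obtain ⟨u, hu, hu'⟩ := hup p hpS
      obtain ⟨e, he, he'⟩ := hroot ℚ_[p] u hu hu' (isSq_padic S m hmN t ht p hpS)
      obtain ⟨δ, hδ, hsc⟩ := scale n (fun i => ((f1.coeff i : ℚ) : ℚ_[p])) (E : ℚ_[p]) e he he'
        (ε / 2) (half_pos hε)
      exact ⟨e, δ, hδ, fun _ => hsc⟩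
    · exact ⟨0, 1, one_pos, fun h => absurd h hpS⟩
  choose ep dp hdp hscp using h'
  obtain ⟨δ1, hδ1, hδ1'⟩ := exists_pos_le S
    (fun p => if hp : p.Prime then @dp p ⟨hp⟩ else 1) (by
      intro p hpS
      rw [dif_pos (hS p hpS)]
      exact @hdp p ⟨hS p hpS⟩)
  have hδ1'' : ∀ (p : ℕ) [Fact p.Prime], p ∈ S → δ1 ≤ dp p := by
    intro p hp hpS
    have := hδ1' p hpS
    rwa [dif_pos hp.out] at this
  obtain ⟨l, hl0, hlp⟩ := approx S hS e0⁻¹ (fun p _ => (ep p)⁻¹) (min δ0 δ1) (lt_min hδ0 hδ1)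
  obtain ⟨hlne, hlc0⟩ := hsc0 (l : ℝ) (by rw [Real.norm_eq_abs]; exact hl0.trans_le (min_le_left _ _))
  refine ⟨f, D0 * m, l, hfirr, hfdeg, by exact_mod_cast hlne, hD, hEL, hBad, ?_, ?_⟩
  · intro i hi
    have h1 := hlc0 i hi
    have h2 := hc0 i hi
    rw [Real.norm_eq_abs] at h1
    have h3 := abs_add_le ((l : ℝ) ^ 2 * (E : ℝ) * ((f1.coeff i : ℚ) : ℝ) - ((f1.coeff i : ℚ) : ℝ))
      (((f1.coeff i : ℚ) : ℝ) - g0.coeff i)
    rw [sub_add_sub_cancel] at h3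
    rw [hco l i]
    push_cast
    linarith
  · intro p hp hpS i hi
    have h1 := (hscp p hpS (l : ℚ_[p]) ((hlp p hpS).trans_le
      ((min_le_right _ _).trans (hδ1'' p hpS)))).2 i hi
    have h2 := hcp p hpS i hi
    have h3 := norm_add_le ((l : ℚ_[p]) ^ 2 * (E : ℚ_[p]) * ((f1.coeff i : ℚ) : ℚ_[p]) -
      ((f1.coeff i : ℚ) : ℚ_[p])) (((f1.coeff i : ℚ) : ℚ_[p]) - (g p).coeff i)
    rw [sub_add_sub_cancel] at h3
    rw [hco l i]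
    push_cast
    linarith

end Pool.Agent.Helper47.WA
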