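import Mathlib
import Pool.Graph.R_pool_sql_team_seeded_3997aac3.Q161.SX.All
import Pool.Graph.R_pool_sql_team_seeded_3997aac3.Q161.SH.SX
import Pool.Graph.R_pool_sql_team_seeded_3997aac3.Q51.EL.All

/-!
# Twists in a given square class without sections: counting

`bad_upper`: the number of the squarefree `D`, `|D| ≤ X`, such that `D y² = f(x)` has a rational point
or a section is at most `C (log X)^(-δ) (X / log X) exp(∑ 1/q)`, the sum over the primes `q ≤ X` modulo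
which `f` has a zero.
-/

set_option autoImplicit false

namespace Pool.Agent.Helper47.WA

open Polynomial NumberField IsDedekindDomain Finset
open Pool.Agent.Q51.EL Pool.Agent.Q161.SX

universe v w

/-- the main term -/
noncomputable def Main (f : ℤ[X]) (X : ℝ) : ℝ := X / Real.log X * Real.exp (Gf f X)

theorem fin_bound (hAR : S_AR.{v}) (hCORE : S_CORE) (hGG : S_GG) (f : ℤ[X])
    (hf : Irreducible (f.map (Int.castRingHom ℚ))) (h6 : 6 ≤ f.natDegree) (A : Type) [Field A]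
    [Algebra ℚ A] [IsAlgClosure ℚ A] (B0 : ℕ) (hB0 : B0 ≠ 0) :
    ∃ δ C X0 : ℝ, 0 < δ ∧ 0 ≤ C ∧ ∀ X : ℝ, X0 ≤ X →
    (({D : ℤ | (D.natAbs : ℝ) ≤ X ∧ Squarefree D ∧
      ∃ (M : Type v) (_ : Field M) (S : Sec f A M), S.Good D B0}.ncard : ℕ) : ℝ) ≤
    C * Real.log X ^ (-δ) * Main f X := by
  obtain ⟨L, i1, i2, θ, hset⟩ := Pool.Agent.Q251.SX.exists_L f hf
  obtain ⟨B, C, N, T, hB, hC, hTy, hD⟩ := hAR f L θ hset (by omega) A B0 hB0
  obtain ⟨c, C1, hc, hcore⟩ := hCORE L (by rw [hset.deg]; omega) B hB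
  obtain ⟨C2, hC2⟩ := hGG f L θ hset
  obtain ⟨X4, hX4, hbox⟩ := Pool.Agent.Q251.SX.box h6 hC
  have hn0 : (0:ℝ) < f.natDegree := by exact_mod_cast (by omega : 0 < f.natDegree)
  obtain ⟨K, hK⟩ : ∃ K : ℝ, K = N * (3 * (B + 1) * (max C1 1 * (C + 3) ^ f.natDegree *
    Real.exp C2 * (1 / (2 * (f.natDegree : ℝ))) ^ (-(1 + c)))) := ⟨_, rfl⟩
  have hK0 : 0 ≤ K := by
    rw [hK]
    have : (0:ℝ) ≤ max C1 1 := le_max_of_le_right zero_le_one
    positivity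
  refine ⟨c, K, X4, hc, hK0, ?_⟩
  intro X hX4'
  obtain ⟨hY3, hYX, hYn, hlogY⟩ := hbox X hX4'
  have hX3' : (3:ℝ) ≤ X := hX4.trans hX4'
  have hX0 : 0 < X := by linarith
  have hlogX : 0 < Real.log X := Real.log_pos (by linarith)
  obtain ⟨Y, hYdef⟩ : ∃ Y : ℝ, Y = C * X ^ ((1 : ℝ) / f.natDegree) + 3 := ⟨_, rfl⟩
  rw [← hYdef] at hY3 hYX hYn hlogY
  have hR : ∀ k, (({β ∈ T k | ∀ σ : L →+* ℂ, ‖σ (β : L)‖ ≤ Y}.ncard : ℕ) : ℝ) ≤
      max C1 1 * ((C + 3) ^ f.natDegree * X) * Real.exp (Gf f X + C2) *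
        (1 / (2 * (f.natDegree : ℝ)) * Real.log X) ^ (-(1 + c)) := by
    intro k
    have h := (hcore (T k) (hTy k) Y hY3).2
    refine h.trans ?_
    rw [hset.deg]
    have hmax : (0:ℝ) ≤ max C1 1 := le_max_of_le_right zero_le_one
    have hlY : 0 < Real.log Y := Real.log_pos (by linarith)
    have e1 : C1 * Y ^ f.natDegree ≤ max C1 1 * ((C + 3) ^ f.natDegree * X) :=
      mul_le_mul (le_max_left _ _) hYn (by positivity) hmax
    have e2 : Real.exp (GN L Y) ≤ Real.exp (Gf f X + C2) :=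
      Real.exp_le_exp.2 ((hC2 Y).trans (by linarith [Pool.Agent.Q251.SX.Gf_mono f hYX]))
    have e3 : Real.log Y ^ (-(1 + c)) ≤
        (1 / (2 * (f.natDegree : ℝ)) * Real.log X) ^ (-(1 + c)) :=
      Real.rpow_le_rpow_of_nonpos (by positivity) hlogY (by linarith)
    have e4 : C1 * Y ^ f.natDegree * Real.exp (GN L Y) ≤
        max C1 1 * ((C + 3) ^ f.natDegree * X) * Real.exp (Gf f X + C2) := by
      refine (mul_le_mul_of_nonneg_right e1 (Real.exp_pos _).le).trans ?_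
      exact mul_le_mul_of_nonneg_left e2 (by positivity)
    refine (mul_le_mul_of_nonneg_right e4 (by positivity)).trans ?_
    exact mul_le_mul_of_nonneg_left e3 (by positivity)
  have hcount := Pool.Agent.Q251.SX.count.{v} f L A B0 B N C T hB hD X Y (by
      intro m hm0 hmX
      rw [hYdef]
      have : m ^ ((1 : ℝ) / f.natDegree) ≤ X ^ ((1 : ℝ) / f.natDegree) :=
        Real.rpow_le_rpow hm0 hmX (by positivity)
      nlinarith [mul_le_mul_of_nonneg_left this hC.le])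
    (fun k => (hcore (T k) (hTy k) Y hY3).1) _ hR
  refine hcount.trans (le_of_eq ?_)
  have e6 : Real.log X ^ (-c) = Real.log X ^ (-(1 + c)) * Real.log X := by
    rw [← Real.rpow_add_one hlogX.ne']
    congr 1
    ring
  rw [hK, Real.exp_add, Real.mul_rpow (by positivity) hlogX.le, Main, e6]
  field_simp

/-- the count for sections -/
theorem sec_bound (f : ℤ[X]) (hf : Irreducible (f.map (Int.castRingHom ℚ)))
    (hev : Even f.natDegree) (h6 : 6 ≤ f.natDegree) :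
    ∃ δ C X0 : ℝ, 0 < δ ∧ 0 ≤ C ∧ ∀ X : ℝ, X0 ≤ X →
    (({D : ℤ | (D.natAbs : ℝ) ≤ X ∧ Squarefree D ∧ HasSec.{v, w} f D}.ncard : ℕ) : ℝ) ≤
    C * Real.log X ^ (-δ) * Main f X := by
  classical
  obtain ⟨B, hB, hS⟩ := Pool.Agent.Q161.SH.secx.{v, w} f hf.separable hev (by omega)
  obtain ⟨A, iA, iA', hA⟩ := closure_ex ℚ
  obtain ⟨δ, C, X0, hδ, hC, h⟩ := fin_bound.{w} t_ar Pool.Agent.Q161.SX.t_core Pool.Agent.Q91.EL.gg f hf h6 A B hB
  refine ⟨δ, C, X0, hδ, hC, fun X hX => le_trans ?_ (h X hX)⟩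
  have hsub : {D : ℤ | (D.natAbs : ℝ) ≤ X ∧ Squarefree D ∧ HasSec.{v, w} f D} ⊆
      {D : ℤ | (D.natAbs : ℝ) ≤ X ∧ Squarefree D ∧
      ∃ (M : Type w) (_ : Field M) (S : Sec f A M), S.Good D B} := by
    rintro D ⟨h1, h2, F, Ω, i1, i2, i3, i4, i5, i6, i7, i8, U, x, y, hU, ⟨G⟩, hxy, hx⟩
    refine ⟨h1, h2, ?_⟩
    obtain ⟨S', hS'⟩ := hS D h2 F Ω U hU G x y hxy hx
    obtain ⟨e0⟩ := equiv_ex ℚ A Ω
    obtain ⟨e⟩ := rat_equiv A (algebraicClosure ℚ Ω) e0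
    obtain ⟨S, hS⟩ := Pool.Agent.Q16.SX.tra f A (algebraicClosure ℚ Ω) (Pool.Agent.W620.SC.unramified F Ω U) e S' D B hS'
    exact ⟨_, inferInstance, S, hS⟩
  exact_mod_cast Set.ncard_le_ncard hsub (natAbs_finite X _)

/-- the count for rational points -/
theorem sel_bound (f : ℤ[X]) (hf : Irreducible (f.map (Int.castRingHom ℚ)))
    (hev : Even f.natDegree) (h6 : 6 ≤ f.natDegree) :
    ∃ δ C X0 : ℝ, 0 < δ ∧ 0 ≤ C ∧ ∀ X : ℝ, X0 ≤ X →
    (({D : ℤ | (D.natAbs : ℝ) ≤ X ∧ Squarefree D ∧ Sel f D}.ncard : ℕ) : ℝ) ≤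
    C * Real.log X ^ (-δ) * Main f X := by
  classical
  haveI : Fact (Irreducible (f.map (Int.castRingHom ℚ))) := ⟨hf⟩
  set L := AdjoinRoot (f.map (Int.castRingHom ℚ)) with hL
  have hfd : FiniteDimensional ℚ L := PowerBasis.finite (AdjoinRoot.powerBasis hf.ne_zero)
  have : CharZero L := algebraRat.charZero L
  have : NumberField L := { to_charZero := inferInstance, to_finiteDimensional := hfd }
  set θ : L := AdjoinRoot.root (f.map (Int.castRingHom ℚ)) with hθ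
  have hnd : (f.map (Int.castRingHom ℚ)).natDegree = f.natDegree :=
    natDegree_map_eq_of_injective (Int.castRingHom ℚ).injective_int f
  have hset : Setup f L θ := by
    refine ⟨hf, ?_, ?_⟩
    · have h1 := AdjoinRoot.eval₂_root (f.map (Int.castRingHom ℚ))
      rw [eval₂_map] at h1
      rw [aeval_def, ← h1]
      congr 1
    · rw [(AdjoinRoot.powerBasis hf.ne_zero).finrank, AdjoinRoot.powerBasis_dim, hnd]
  have hint : IsIntegral ℤ ((f.leadingCoeff : L) * θ) := by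
    have h1 : IsIntegral ℤ (f.leadingCoeff • θ) := isIntegral_leadingCoeff_smul f θ hset.root
    rwa [zsmul_eq_mul] at h1
  set t : 𝓞 L := ⟨(f.leadingCoeff : L) * θ, hint⟩ with ht
  obtain ⟨B, C1, hB, hC1, hD⟩ := t_desc f L θ hset hev (by omega) t rfl
  obtain ⟨c, C2, hc, hcore⟩ := Pool.Agent.Q51.EL.t_core L (by rw [hset.deg]; omega) B hB
  obtain ⟨C3, hC3⟩ := Pool.Agent.Q91.EL.gg f L θ hset
  have hα : ∀ D : ℤ, Squarefree D → Sel f D → ∃ α : 𝓞 L, α ≠ 0 ∧ Good B t α ∧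
      IsSquare (((D * f.leadingCoeff : ℤ) : ℚ) * Algebra.norm ℚ (α : L)) ∧
      ∀ σ : L →+* ℂ, ‖σ (α : L)‖ ≤ C1 * (D.natAbs : ℝ) ^ ((1 : ℝ) / f.natDegree) := by
    rintro D hDs ⟨d, hcop, hsq, -, hp⟩
    have haev : aeval θ d = AdjoinRoot.mk (f.map (Int.castRingHom ℚ)) d := by
      rw [hθ]; exact AdjoinRoot.aeval_eq d
    refine hD D hDs ⟨d, ?_, ?_, hp⟩
    · rw [haev]
      intro h0
      rw [AdjoinRoot.mk_eq_zero] at h0
      have := hcop.isUnit_of_dvd' dvd_rfl h0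
      exact hf.not_isUnit this
    · rw [haev]; exact hsq
  choose! A hA0 hAG hAsq hAσ using hα
  obtain ⟨X4, hX4, hbox⟩ := Pool.Agent.Q251.SX.box h6 (C := max C1 1) (lt_max_of_lt_right one_pos)
  have hn0 : (0:ℝ) < f.natDegree := by exact_mod_cast (by omega : 0 < f.natDegree)
  obtain ⟨K, hK⟩ : ∃ K : ℝ, K = max C2 1 * (max C1 1 + 3) ^ f.natDegree *
    Real.exp C3 * (1 / (2 * (f.natDegree : ℝ))) ^ (-(1 + c)) := ⟨_, rfl⟩
  have hmax2 : (0:ℝ) ≤ max C2 1 := le_max_of_le_right zero_le_one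
  have hmax1 : (0:ℝ) < max C1 1 := lt_max_of_lt_right one_pos
  have hK0 : 0 ≤ K := by
    rw [hK]
    positivity
  refine ⟨c, K, X4, hc, hK0, ?_⟩
  intro X hX4'
  obtain ⟨hY3, hYX, hYn, hlogY⟩ := hbox X hX4'
  have hX3' : (3:ℝ) ≤ X := hX4.trans hX4'
  have hX0 : 0 < X := by linarith
  have hlogX : 0 < Real.log X := Real.log_pos (by linarith)
  obtain ⟨Y, hYdef⟩ : ∃ Y : ℝ, Y = max C1 1 * X ^ ((1 : ℝ) / f.natDegree) + 3 := ⟨_, rfl⟩
  rw [← hYdef] at hY3 hYX hYn hlogY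
  obtain ⟨hfin, hcard⟩ := hcore {α | Good B t α}
    (fun l hl hlB => Pool.Agent.Q91.EL.ty L B t l hl hlB) Y hY3
  have hinj : ({D : ℤ | (D.natAbs : ℝ) ≤ X ∧ Squarefree D ∧ Sel f D}).ncard ≤
      ({β ∈ {α | Good B t α} | ∀ σ : L →+* ℂ, ‖σ (β : L)‖ ≤ Y}).ncard := by
    apply Set.ncard_le_ncard_of_injOn A _ _ hfin
    · rintro D ⟨hDX, hDs, hDS⟩
      refine ⟨hAG D hDs hDS, fun σ => (hAσ D hDs hDS σ).trans ?_⟩
      rw [hYdef]
      refine le_trans (mul_le_mul (le_max_left _ 1)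
        (Real.rpow_le_rpow (Nat.cast_nonneg _) hDX (by positivity)) (by positivity) hmax1.le) ?_
      linarith
    · rintro D ⟨hDX, hDs, hDS⟩ D' ⟨hDX', hDs', hDS'⟩ hAA
      have h1 := hAsq D hDs hDS
      have h2 := hAsq D' hDs' hDS'
      have hAA' : A D = A D' := hAA
      rw [← hAA'] at h2
      have hN0 : Algebra.norm ℚ ((A D : 𝓞 L) : L) ≠ 0 := by
        rw [Algebra.norm_ne_zero_iff]
        exact_mod_cast (hA0 D hDs hDS)
      have ha0 : ((f.leadingCoeff : ℤ) : ℚ) ≠ 0 := by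
        have : f.leadingCoeff ≠ 0 := by
          rw [Ne, leadingCoeff_eq_zero]
          rintro rfl
          simp at h6
        exact_mod_cast this
      apply sqf_eq hDs hDs'
      obtain ⟨u, hu⟩ := h1
      obtain ⟨w, hw⟩ := h2
      refine ⟨u * w / ((f.leadingCoeff : ℤ) * Algebra.norm ℚ ((A D : 𝓞 L) : L)), ?_⟩
      field_simp
      have h3 : ((D * D' : ℤ) : ℚ) * (((f.leadingCoeff : ℤ) : ℚ) ^ 2 *
        Algebra.norm ℚ ((A D : 𝓞 L) : L) ^ 2) = (u * u) * (w * w) := by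
        rw [← hu, ← hw]; push_cast; ring
      linear_combination h3
  have hlY : 0 < Real.log Y := Real.log_pos (by linarith)
  have e1 : C2 * Y ^ f.natDegree ≤ max C2 1 * ((max C1 1 + 3) ^ f.natDegree * X) :=
    mul_le_mul (le_max_left _ _) hYn (by positivity) hmax2
  have e2 : Real.exp (GN L Y) ≤ Real.exp (Gf f X + C3) :=
    Real.exp_le_exp.2 ((hC3 Y).trans (by linarith [Pool.Agent.Q251.SX.Gf_mono f hYX]))
  have e3 : Real.log Y ^ (-(1 + c)) ≤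
      (1 / (2 * (f.natDegree : ℝ)) * Real.log X) ^ (-(1 + c)) :=
    Real.rpow_le_rpow_of_nonpos (by positivity) hlogY (by linarith)
  have e4 : C2 * Y ^ f.natDegree * Real.exp (GN L Y) ≤
      max C2 1 * ((max C1 1 + 3) ^ f.natDegree * X) * Real.exp (Gf f X + C3) := by
    refine (mul_le_mul_of_nonneg_right e1 (Real.exp_pos _).le).trans ?_
    exact mul_le_mul_of_nonneg_left e2 (by positivity)
  have e6 : Real.log X ^ (-c) = Real.log X ^ (-(1 + c)) * Real.log X := by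
    rw [← Real.rpow_add_one hlogX.ne']
    congr 1
    ring
  calc ((({D : ℤ | (D.natAbs : ℝ) ≤ X ∧ Squarefree D ∧ Sel f D}).ncard : ℕ) : ℝ)
      ≤ (({β ∈ {α | Good B t α} | ∀ σ : L →+* ℂ, ‖σ (β : L)‖ ≤ Y}).ncard : ℝ) := by
        exact_mod_cast hinj
    _ ≤ C2 * Y ^ Module.finrank ℚ L * Real.exp (GN L Y) * Real.log Y ^ (-(1 + c)) := hcard
    _ = C2 * Y ^ f.natDegree * Real.exp (GN L Y) * Real.log Y ^ (-(1 + c)) := by rw [hset.deg]
    _ ≤ max C2 1 * ((max C1 1 + 3) ^ f.natDegree * X) * Real.exp (Gf f X + C3) *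
        (1 / (2 * (f.natDegree : ℝ)) * Real.log X) ^ (-(1 + c)) := by
        refine (mul_le_mul_of_nonneg_right e4 (by positivity)).trans ?_
        exact mul_le_mul_of_nonneg_left e3 (by positivity)
    _ = K * Real.log X ^ (-c) * Main f X := by
        rw [hK, Real.exp_add, Real.mul_rpow (by positivity) hlogX.le, Main, e6]
        field_simp

/-- the count for points and sections -/
theorem bad_bound (f : ℤ[X]) (hf : Irreducible (f.map (Int.castRingHom ℚ)))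
    (hev : Even f.natDegree) (h6 : 6 ≤ f.natDegree) :
    ∃ δ C X0 : ℝ, 0 < δ ∧ 0 ≤ C ∧ ∀ X : ℝ, X0 ≤ X →
    (({D : ℤ | (D.natAbs : ℝ) ≤ X ∧ Squarefree D ∧ Bad.{v, w} f D}.ncard : ℕ) : ℝ) ≤
    C * Real.log X ^ (-δ) * Main f X := by
  obtain ⟨δ1, C1, X1, hδ1, hC1, h1⟩ := sec_bound.{v, w} f hf hev h6
  obtain ⟨δ2, C2, X2, hδ2, hC2, h2⟩ := sel_bound f hf hev h6
  have hlift := Pool.Agent.Q241.EL.lift f hf (by omega)
  refine ⟨min δ1 δ2, C1 + C2, max X1 (max X2 3), lt_min hδ1 hδ2, by positivity, fun X hX => ?_⟩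
  have hX1 : X1 ≤ X := (le_max_left _ _).trans hX
  have hX2 : X2 ≤ X := ((le_max_left _ _).trans (le_max_right _ _)).trans hX
  have hX3 : 3 ≤ X := ((le_max_right _ _).trans (le_max_right _ _)).trans hX
  have hlog : 1 ≤ Real.log X := by
    rw [← Real.log_exp 1]
    refine Real.log_le_log (Real.exp_pos _) (le_trans ?_ hX3)
    exact (Real.exp_one_lt_d9.trans (by norm_num)).le
  have hsub : {D : ℤ | (D.natAbs : ℝ) ≤ X ∧ Squarefree D ∧ Bad.{v, w} f D} ⊆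
      {D : ℤ | (D.natAbs : ℝ) ≤ X ∧ Squarefree D ∧ HasSec.{v, w} f D} ∪
      {D : ℤ | (D.natAbs : ℝ) ≤ X ∧ Squarefree D ∧ Sel f D} := by
    rintro D ⟨h3, h4, h5 | ⟨F, Ω, i1, i2, i3, i4, i5, i6, i7, i8, U, x, y, hU, ⟨G⟩, hxy⟩⟩
    · exact Or.inr ⟨h3, h4, hlift D h5⟩
    · by_cases hx : Transcendental ℚ x
      · exact Or.inl ⟨h3, h4, F, Ω, i1, i2, i3, i4, i5, i6, i7, i8, U, x, y, hU, ⟨G⟩, hxy, hx⟩
      · exact Or.inr ⟨h3, h4, hlift D (curvePt_of_alg h4.ne_zero U hU G x y hxy hx)⟩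
  have h3 := (Set.ncard_le_ncard hsub ((natAbs_finite X _).union (natAbs_finite X _))).trans
    (Set.ncard_union_le _ _)
  have h4 : (({D : ℤ | (D.natAbs : ℝ) ≤ X ∧ Squarefree D ∧ Bad.{v, w} f D}.ncard : ℕ) : ℝ) ≤
      (({D : ℤ | (D.natAbs : ℝ) ≤ X ∧ Squarefree D ∧ HasSec.{v, w} f D}.ncard : ℕ) : ℝ) +
      (({D : ℤ | (D.natAbs : ℝ) ≤ X ∧ Squarefree D ∧ Sel f D}.ncard : ℕ) : ℝ) := by
    exact_mod_cast h3
  have h5 := h1 X hX1
  have h6 := h2 X hX2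
  have hM0 : 0 ≤ Main f X := by unfold Main; positivity
  have h7 : Real.log X ^ (-δ1) ≤ Real.log X ^ (-(min δ1 δ2)) :=
    Real.rpow_le_rpow_of_exponent_le hlog (by linarith [min_le_left δ1 δ2])
  have h8 : Real.log X ^ (-δ2) ≤ Real.log X ^ (-(min δ1 δ2)) :=
    Real.rpow_le_rpow_of_exponent_le hlog (by linarith [min_le_right δ1 δ2])
  have e1 : C1 * Real.log X ^ (-δ1) * Main f X ≤ C1 * Real.log X ^ (-(min δ1 δ2)) * Main f X := by
    gcongr
  have e2 : C2 * Real.log X ^ (-δ2) * Main f X ≤ C2 * Real.log X ^ (-(min δ1 δ2)) * Main f X := by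
    gcongr
  rw [add_mul, add_mul]
  linarith

end Pool.Agent.Helper47.WA
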